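import Pool.Agent.Lib.MP_0c3001_gt.Mg.G004

/-!
The bridge: the cohomology of the fundamental group of a closed aspherical topological manifold.
-/

set_option autoImplicit false

open CategoryTheory Pool.MP0c3001

namespace Pool.Agent.MP_0c3001_gt.Br

/-- The group cohomology of the fundamental group of a closed aspherical topological manifold
vanishes in large degrees, and is finitely generated for finitely generated coefficients. -/
theorem bridge (n : ℕ) (M : Type) [TopologicalSpace M] [T2Space M]
    [SecondCountableTopology M] [ChartedSpace (EuclideanSpace ℝ (Fin n)) M] [CompactSpace M]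
    (hπ : ∀ (k : ℕ) (x : M), 2 ≤ k → Subsingleton (HomotopyGroup (Fin k) M x)) (x₀ : M)
    {k : Type} [CommRing k] (hk : Function.Bijective (Int.cast : ℤ → k)) :
    (∃ D : ℕ, ∀ (V : Rep.{0} k (FundamentalGroup M x₀)) (i : ℕ), D ≤ i →
      Subsingleton (HH k (FundamentalGroup M x₀) V i)) ∧
    FgCoh k (FundamentalGroup M x₀) :=
  ⟨exists_vanish (fdx_fundamentalGroup n M hπ x₀), fgCoh_of_fdx hk (fdx_fundamentalGroup n M hπ x₀)⟩

end Pool.Agent.MP_0c3001_gt.Br
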